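import Mathlib

/-!
# Monomial space and degree in polynomial calculus (definitions for MP_a6f615_lc)

`F` is a field, `V` the set of variables.

* `BoolI V F` : the Boolean ideal, generated by the `x ^ 2 - x`.
* `Unsat P` : no 0/1 assignment is a common zero of the polynomials of `P`.
* `MSp S` : the number of distinct monomials occurring in the polynomials of the finite set `S`.
* `SemRef P` : a semantic refutation of `P`: configurations `conf 0, ..., conf len`, the first one
  empty, the last one containing `1`, and for every step there is one `p` in `P` such that the new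
  configuration lies in the ideal `<conf i> + I + <p>`.
* `SemRef.space` : its monomial space, the maximum of `MSp (conf i)`.
* `PC P k q` : `q` is a line of a (syntactic) polynomial calculus derivation from `P` all of whose
  lines have degree at most `k`.
* `IsDeg P d` : `d` is the maximum degree of a polynomial in `P`.
* `IsPCDeg P D` : `D` is the minimum degree of a polynomial calculus refutation of `P`.
-/

namespace Pool.Agent.W971.MonSp

open MvPolynomial

/-- The Boolean ideal. -/
noncomputable def BoolI (V F : Type) [Field F] : Ideal (MvPolynomial V F) :=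
  Ideal.span (Set.range fun v : V => (X v ^ 2 - X v : MvPolynomial V F))

/-- No 0/1 assignment is a common zero. -/
def Unsat {V F : Type} [Field F] (P : Set (MvPolynomial V F)) : Prop :=
  ∀ a : V → F, (∀ v, a v = 0 ∨ a v = 1) → ∃ p ∈ P, eval a p ≠ 0

open Classical in
/-- Number of distinct monomials in the polynomials of a finite set. -/
noncomputable def MSp {V F : Type} [Field F] (S : Finset (MvPolynomial V F)) : ℕ :=
  (S.biUnion fun p => p.support).card

/-- A semantic polynomial calculus refutation. -/
structure SemRef {V F : Type} [Field F] (P : Set (MvPolynomial V F)) where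
  len : ℕ
  conf : ℕ → Finset (MvPolynomial V F)
  start : conf 0 = ∅
  fin : (1 : MvPolynomial V F) ∈ conf len
  step : ∀ i < len, ∃ p ∈ P, ∀ q ∈ conf (i + 1),
    q ∈ Ideal.span (conf i : Set (MvPolynomial V F)) ⊔ BoolI V F ⊔ Ideal.span {p}

/-- Monomial space of a semantic refutation. -/
noncomputable def SemRef.space {V F : Type} [Field F] {P : Set (MvPolynomial V F)}
    (π : SemRef P) : ℕ :=
  (Finset.range (π.len + 1)).sup fun i => MSp (π.conf i)

/-- Lines of polynomial calculus derivations from `P` of degree at most `k`. -/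
inductive PC {V F : Type} [Field F] (P : Set (MvPolynomial V F)) (k : ℕ) :
    MvPolynomial V F → Prop
  | ax (p : MvPolynomial V F) (hp : p ∈ P) (hk : p.totalDegree ≤ k) : PC P k p
  | bool (v : V) (hk : (X v ^ 2 - X v : MvPolynomial V F).totalDegree ≤ k) :
      PC P k (X v ^ 2 - X v)
  | lin (α β : F) (p q : MvPolynomial V F) (hp : PC P k p) (hq : PC P k q)
      (hk : (C α * p + C β * q).totalDegree ≤ k) : PC P k (C α * p + C β * q)
  | mul (v : V) (p : MvPolynomial V F) (hp : PC P k p)
      (hk : (X v * p).totalDegree ≤ k) : PC P k (X v * p)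

/-- `d` is the maximum degree of a polynomial in `P`. -/
def IsDeg {V F : Type} [Field F] (P : Set (MvPolynomial V F)) (d : ℕ) : Prop :=
  IsGreatest {e | ∃ p ∈ P, e = p.totalDegree} d

/-- `D` is the minimum degree of a polynomial calculus refutation of `P`. -/
def IsPCDeg {V F : Type} [Field F] (P : Set (MvPolynomial V F)) (D : ℕ) : Prop :=
  IsLeast {k | PC P k 1} D

/-- The target: for every `n`, the one-element set `{x_1 + ... + x_n + 1}` over `ℚ` is
unsatisfiable, has degree 1, has a semantic refutation of monomial space 1, has polynomial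
calculus refutations, and the least degree `D` of one of them satisfies `n < 2 * D`. In
particular the negated form of the question holds. -/
def Target : Prop :=
  (∀ n : ℕ, 1 ≤ n → ∃ (P : Set (MvPolynomial (Fin n) ℚ)) (π : SemRef P) (D : ℕ),
    P = {(∑ i, X i) + 1} ∧ Unsat P ∧ IsDeg P 1 ∧ π.space = 1 ∧ IsPCDeg P D ∧ n < 2 * D) ∧
  (∀ c : ℝ, 0 < c → ∃ (n : ℕ) (P : Set (MvPolynomial (Fin n) ℚ)) (π : SemRef P) (d D : ℕ),
    P.Finite ∧ Unsat P ∧ IsDeg P d ∧ IsPCDeg P D ∧
    (π.space : ℝ) < c * ((D : ℝ) - (d : ℝ)))

/-- The set `{x_1 + ... + x_n + 1}` over `ℚ`. -/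
noncomputable def Pn (n : ℕ) : Set (MvPolynomial (Fin n) ℚ) := {(∑ i, X i) + 1}

/-- Subtask MS-INJ: the inclusion map from `j`-sets to `j+1`-sets is injective for `2j+1 ≤ n`. -/
def S_inj : Prop :=
  ∀ (n j : ℕ), 2 * j + 1 ≤ n → ∀ c : Finset (Fin n) → ℚ, (∀ T, T.card ≠ j → c T = 0) →
    (∀ T : Finset (Fin n), T.card = j + 1 → ∑ i ∈ T, c (T.erase i) = 0) → ∀ T, c T = 0

/-- Subtask MS-LB: the degree lower bound. -/
def S_lb : Prop :=
  ∀ n k : ℕ, 1 ≤ n → PC (Pn n) k 1 → n < 2 * k

/-- Subtask MS-EX: refutations exist (syntactic and semantic). -/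
def S_ex : Prop :=
  ∀ n : ℕ, 1 ≤ n → Unsat (Pn n) ∧ IsDeg (Pn n) 1 ∧ (∃ k, PC (Pn n) k 1) ∧
    ∃ π : SemRef (Pn n), π.space = 1

end Pool.Agent.W971.MonSp
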