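import Mathlib
import Pool.Agent.W971.MonSp

namespace Pool.Agent.W971.MonSp

theorem target_of (hlb : S_lb) (hex : S_ex) : Target := by
  have key : ∀ n : ℕ, 1 ≤ n → ∃ (π : SemRef (Pn n)) (D : ℕ),
      Unsat (Pn n) ∧ IsDeg (Pn n) 1 ∧ π.space = 1 ∧ IsPCDeg (Pn n) D ∧ n < 2 * D := by
    intro n hn
    obtain ⟨hu, hd, ⟨k, hk⟩, π, hπ⟩ := hex n hn
    classical
    have hne : ∃ k, PC (Pn n) k 1 := ⟨k, hk⟩
    refine ⟨π, Nat.find hne, hu, hd, hπ, ⟨Nat.find_spec hne, fun k hk => Nat.find_min' hne hk⟩,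
      hlb n _ hn (Nat.find_spec hne)⟩
  refine ⟨fun n hn => ?_, fun c hc => ?_⟩
  · obtain ⟨π, D, h1, h2, h3, h4, h5⟩ := key n hn
    exact ⟨Pn n, π, D, rfl, h1, h2, h3, h4, h5⟩
  · obtain ⟨n, hn⟩ := exists_nat_gt (2 / c + 1)
    have hpos : 0 < 2 / c := by positivity
    have hn1 : 1 ≤ n := by
      have : (1 : ℝ) < n := by linarith
      exact_mod_cast this.le
    obtain ⟨π, D, h1, h2, h3, h4, h5⟩ := key n hn1
    refine ⟨n, Pn n, π, 1, D, Set.finite_singleton _, h1, h2, h4, ?_⟩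
    rw [h3]
    have h6 : (n : ℝ) + 1 ≤ 2 * D := by exact_mod_cast h5
    have h7 : 2 / c < (n : ℝ) - 1 := by linarith
    have h8 : 2 < c * ((n : ℝ) - 1) := by
      rw [div_lt_iff₀ hc] at h7; linarith
    have h9 : c * ((n : ℝ) - 1) ≤ c * (2 * ((D : ℝ) - 1)) :=
      mul_le_mul_of_nonneg_left (by linarith) hc.le
    push_cast
    nlinarith

end Pool.Agent.W971.MonSp
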